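import Mathlib

namespace Pool.Agent.Results.MP_83ba34_nt.TwoPrimes

def good (P : ℤ) : Prop := ∀ x : ℤ, P ∣ x ^ 2 - 1 → P ∣ x - 1 ∨ P ∣ x + 1

lemma good_pow (p k : ℕ) (hp : p.Prime) (h2 : p ≠ 2) : good ((p : ℤ) ^ k) := by
  intro x hx
  have hp' : Prime (p : ℤ) := Nat.prime_iff_prime_int.1 hp
  rw [show x ^ 2 - 1 = (x - 1) * (x + 1) by ring] at hx
  by_cases h : (p : ℤ) ∣ x + 1
  · right
    have h' : ¬ (p : ℤ) ∣ x - 1 := by
      intro h'
      have : (p : ℤ) ∣ 2 := by simpa [show x + 1 - (x - 1) = 2 by ring] using dvd_sub h h'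
      have : p ∣ 2 := by exact_mod_cast this
      exact h2 ((Nat.prime_dvd_prime_iff_eq hp Nat.prime_two).1 this)
    exact hp'.pow_dvd_of_dvd_mul_left k h' hx
  · left
    exact hp'.pow_dvd_of_dvd_mul_right k h hx

lemma good_two (P : ℤ) (hP : good P) (hc : IsCoprime 2 P) : good (2 * P) := by
  intro x hx
  have h2 : (2 : ℤ) ∣ x ^ 2 - 1 := (Dvd.intro _ rfl).trans hx
  have hodd : (2 : ℤ) ∣ x - 1 := by
    rcases Int.even_or_odd' x with ⟨y, rfl | rfl⟩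
    · exfalso
      have : (2 * y) ^ 2 - 1 = 2 * (2 * y ^ 2) - 1 := by ring
      omega
    · omega
  rcases hP x ((Dvd.intro_left _ rfl).trans hx) with h | h
  · exact Or.inl (hc.mul_dvd hodd h)
  · exact Or.inr (hc.mul_dvd (by omega) h)

lemma small (n a : ℤ) (h1 : 1 ≤ a) (h2 : a < n) (hn : n ∣ a ^ 2 - 1) (ha : a ∣ n ^ 2 - 1)
    (h3 : a ≠ n - 1) : 2 * a < n := by
  have hc : IsCoprime n a := by
    obtain ⟨c, hc⟩ := hn
    exact ⟨-c, a, by linear_combination hc⟩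
  have hd : n * a ∣ n ^ 2 + a ^ 2 - 1 := by
    apply hc.mul_dvd
    · rw [show n ^ 2 + a ^ 2 - 1 = n * n + (a ^ 2 - 1) by ring]; exact dvd_add (Dvd.intro _ rfl) hn
    · rw [show n ^ 2 + a ^ 2 - 1 = a * a + (n ^ 2 - 1) by ring]; exact dvd_add (Dvd.intro _ rfl) ha
  obtain ⟨z, hz⟩ := hd
  by_contra h
  have hna : 0 < n * a := by nlinarith
  have hz2 : 2 < z := by
    by_contra hz2
    have : n * a * z ≤ n * a * 2 := mul_le_mul_of_nonneg_left (by omega) hna.le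
    have : 2 ≤ n - a := by omega
    nlinarith
  have : n * a * 3 ≤ n * a * z := mul_le_mul_of_nonneg_left (by omega) hna.le
  nlinarith

lemma main (P Q : ℤ) (hP : good P) (hQ : good Q) (hc : IsCoprime P Q) :
    {a : ℤ | 1 ≤ a ∧ a < P * Q ∧ P * Q ∣ a ^ 2 - 1 ∧ a ∣ (P * Q) ^ 2 - 1}.ncard ≤ 3 := by
  set n := P * Q with hn
  have key : ∀ a : ℤ, 1 ≤ a → a < n → n ∣ a ^ 2 - 1 → a ≠ 1 → a ≠ n - 1 →
      (P ∣ a - 1 ∧ Q ∣ a + 1) ∨ (P ∣ a + 1 ∧ Q ∣ a - 1) := by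
    intro a h1 h2 h3 h4 h5
    rcases hP a ((Dvd.intro _ rfl).trans h3) with u | u <;>
      rcases hQ a ((Dvd.intro_left _ rfl).trans h3) with v | v
    · have := Int.le_of_dvd (by omega) (hc.mul_dvd u v); omega
    · exact Or.inl ⟨u, v⟩
    · exact Or.inr ⟨u, v⟩
    · have := Int.le_of_dvd (by omega) (hc.mul_dvd u v); omega
  by_cases h : ∃ b : ℤ, (1 ≤ b ∧ b < n ∧ n ∣ b ^ 2 - 1 ∧ b ∣ n ^ 2 - 1) ∧ b ≠ 1 ∧ b ≠ n - 1
  · obtain ⟨b, ⟨b1, b2, b3, b4⟩, b5, b6⟩ := h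
    refine (Set.ncard_le_ncard (t := {1, n - 1, b}) ?_ (Set.toFinite _)).trans
      (Set.ncard_insert_le _ _ |>.trans (by
        have := Set.ncard_insert_le (n - 1) ({b} : Set ℤ)
        rw [Set.ncard_singleton] at this; omega))
    rintro a ⟨a1, a2, a3, a4⟩
    simp only [Set.mem_insert_iff, Set.mem_singleton_iff]
    by_contra hcon
    push Not at hcon
    obtain ⟨a5, a6, a7⟩ := hcon
    have sa := small n a a1 a2 a3 a4 a6
    have sb := small n b b1 b2 b3 b4 b6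
    have e1 : ¬ (P ∣ a - b ∧ Q ∣ a - b) := fun ⟨u, v⟩ => by
      have := Int.eq_zero_of_abs_lt_dvd (hc.mul_dvd u v) (abs_lt.2 ⟨by omega, by omega⟩); omega
    have e2 : ¬ (P ∣ a + b ∧ Q ∣ a + b) := fun ⟨u, v⟩ => by
      have := Int.le_of_dvd (by omega) (hc.mul_dvd u v); omega
    rcases key a a1 a2 a3 a5 a6 with ⟨u, v⟩ | ⟨u, v⟩ <;>
      rcases key b b1 b2 b3 b5 b6 with ⟨u', v'⟩ | ⟨u', v'⟩
    · exact e1 ⟨by simpa using dvd_sub u u', by simpa using dvd_sub v v'⟩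
    · exact e2 ⟨by simpa using dvd_add u u', by simpa using dvd_add v v'⟩
    · exact e2 ⟨by simpa using dvd_add u u', by simpa using dvd_add v v'⟩
    · exact e1 ⟨by simpa using dvd_sub u u', by simpa using dvd_sub v v'⟩
  · push Not at h
    refine (Set.ncard_le_ncard (t := {1, n - 1}) ?_ (Set.toFinite _)).trans
      (Set.ncard_insert_le _ _ |>.trans (by rw [Set.ncard_singleton]; omega))
    intro a ha
    simp only [Set.mem_insert_iff, Set.mem_singleton_iff]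
    by_cases h1 : a = 1
    · exact Or.inl h1
    · exact Or.inr (h a ha h1)

theorem result (p q i j : ℕ) (hp : p.Prime) (hq : q.Prime) (hp2 : p ≠ 2) (hq2 : q ≠ 2)
    (hpq : p ≠ q) (n : ℤ) (hn : n = p ^ i * q ^ j ∨ n = 2 * p ^ i * q ^ j ∨ n = 4 * p ^ i) :
    {a : ℤ | 1 ≤ a ∧ a < n ∧ n ∣ a ^ 2 - 1 ∧ a ∣ n ^ 2 - 1}.ncard ≤ 3 := by
  have c1 : IsCoprime ((p : ℤ) ^ i) ((q : ℤ) ^ j) :=
    IsCoprime.pow (Nat.isCoprime_iff_coprime.2 ((Nat.coprime_primes hp hq).2 hpq))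
  have c2 : ∀ r k : ℕ, r.Prime → r ≠ 2 → IsCoprime (2 : ℤ) ((r : ℤ) ^ k) := fun r k hr h =>
    IsCoprime.pow_right (by
      exact_mod_cast Nat.isCoprime_iff_coprime.2 ((Nat.coprime_primes Nat.prime_two hr).2 h.symm))
  rcases hn with rfl | rfl | rfl
  · exact main _ _ (good_pow p i hp hp2) (good_pow q j hq hq2) c1
  · exact main _ _ (good_two _ (good_pow p i hp hp2) (c2 p i hp hp2)) (good_pow q j hq hq2)
      (IsCoprime.mul_left (c2 q j hq hq2) c1)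
  · refine main 4 _ ?_ (good_pow p i hp hp2) ?_
    · intro x hx
      rcases Int.even_or_odd' x with ⟨y, rfl | rfl⟩
      · have : (2 * y) ^ 2 - 1 = 4 * (y ^ 2) - 1 := by ring
        omega
      · omega
    · exact IsCoprime.mul_left (c2 p i hp hp2) (c2 p i hp hp2)

end Pool.Agent.Results.MP_83ba34_nt.TwoPrimes
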